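import Pool.Agent.helper50.PHN.Spec

set_option autoImplicit false

namespace Pool.Agent.PHN

open Finset

theorem FIN_tel (k₀ : ℕ) (h : 1 ≤ k₀) (K : ℕ) (hK : k₀ ≤ K) :
    ∑ k ∈ Ico k₀ K, 1 / ((k : ℝ) + 1) ^ 2 ≤ 1 / (k₀ : ℝ) - 1 / K := by
  induction K, hK using Nat.le_induction with
  | base => simp
  | succ K hK ih =>
      rw [Finset.sum_Ico_succ_top hK]
      have hK0 : (0 : ℝ) < K := by
        have : 0 < K := by omega
        exact_mod_cast this
      have h1 : 1 / ((K : ℝ) + 1) ^ 2 ≤ 1 / (K : ℝ) - 1 / ((K : ℝ) + 1) := by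
        have h2 : 1 / (K : ℝ) - 1 / ((K : ℝ) + 1) = 1 / ((K : ℝ) * ((K : ℝ) + 1)) := by
          field_simp
          ring
        rw [h2]
        refine one_div_le_one_div_of_le (by positivity) ?_
        nlinarith
      push_cast
      linarith

theorem FIN_dl (p : ℕ) (hp : 4 ≤ p) : 0 < dl p ∧ dl p ≤ 1 / 2 := by
  have hp0 : (0 : ℝ) < p := by
    have : 0 < p := by omega
    exact_mod_cast this
  refine ⟨Real.rpow_pos_of_pos hp0 _, ?_⟩
  unfold dl
  have hp4 : (4 : ℝ) ≤ p := by exact_mod_cast hp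
  have h1 : (p : ℝ) ^ (-(99 / 100) : ℝ) ≤ (4 : ℝ) ^ (-(99 / 100) : ℝ) :=
    Real.rpow_le_rpow_of_nonpos (by norm_num) hp4 (by norm_num)
  have h2 : (4 : ℝ) ^ (-(99 / 100) : ℝ) ≤ (4 : ℝ) ^ (-(1 / 2) : ℝ) :=
    Real.rpow_le_rpow_of_exponent_le (by norm_num) (by norm_num)
  have h3 : (4 : ℝ) ^ (-(1 / 2) : ℝ) = 1 / 2 := by
    have h4 : (4 : ℝ) = 2 ^ (2 : ℝ) := by norm_num
    rw [h4, ← Real.rpow_mul (by norm_num)]
    norm_num
  linarith

theorem FIN_lp_le (m : ℕ) : lp m ≤ m := by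
  unfold lp
  exact Finset.sup_le fun p hp => Nat.le_of_mem_primeFactors hp

theorem FIN_bl_lt (n K : ℕ) (hK : 0 < K) (h : n < 2 ^ K) : bl n < K := by
  unfold bl
  by_cases h0 : lp n.totient = 0
  · rw [h0]
    simpa using hK
  · refine Nat.log_lt_of_lt_pow h0 ?_
    exact lt_of_le_of_lt ((FIN_lp_le _).trans (Nat.totient_le n)) h

theorem FIN_blocks (f : ℕ → ℝ) (k₀ K : ℕ) (hK : k₀ ≤ K) :
    ∑ q ∈ Ico (2 ^ k₀) (2 ^ K), f q = ∑ k ∈ Ico k₀ K, ∑ q ∈ Ico (2 ^ k) (2 ^ (k + 1)), f q := by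
  induction K, hK using Nat.le_induction with
  | base => simp
  | succ K hK ih =>
      rw [Finset.sum_Ico_succ_top hK, ← ih]
      exact (Finset.sum_Ico_consecutive f (Nat.pow_le_pow_right (by norm_num) hK)
        (Nat.pow_le_pow_right (by norm_num) (Nat.le_succ K))).symm

theorem FIN_DS (δ : ℕ → ℝ) (q0 : ℕ) (F : Finset ℕ) (k q : ℕ) (hq : q ∈ Ico (2 ^ k) (2 ^ (k + 1))) :
    DS δ q0 Nat.totient F q = DS δ q0 Nat.totient (F.filter fun n => bl n = k) q := by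
  have h : F.filter (fun i => lp (Nat.totient i) = q) =
      (F.filter fun n => bl n = k).filter (fun i => lp (Nat.totient i) = q) := by
    ext i
    simp only [Finset.mem_filter]
    constructor
    · rintro ⟨h1, h2⟩
      refine ⟨⟨h1, ?_⟩, h2⟩
      unfold bl
      rw [h2]
      rw [Finset.mem_Ico] at hq
      exact Nat.log_eq_of_pow_le_of_lt_pow hq.1 hq.2
    · rintro ⟨⟨h1, _⟩, h2⟩
      exact ⟨h1, h2⟩
  unfold DS
  rw [h]

theorem FIN_gg (q0 m : ℕ) : 0 ≤ gg dl q0 m := by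
  unfold gg
  refine Finset.prod_nonneg fun p _ => ?_
  have : 0 ≤ dl p := Real.rpow_nonneg (Nat.cast_nonneg p) _
  linarith

theorem FIN (hDBB : DBB_stmt) (hC2B : C2B_stmt) (hC1B : C1B_stmt) (hABB : ABB_stmt) (hDIS : DIS_stmt) :
    FIN_stmt := by
  intro W hW
  obtain ⟨k1, hk1⟩ := hDBB
  obtain ⟨k2, hk2⟩ := hC2B
  obtain ⟨k3, hk3⟩ := hC1B
  obtain ⟨k₀, hk0⟩ : ∃ k₀ : ℕ, k₀ = max (max k1 k2) (max k3 (6 * W + 2)) := ⟨_, rfl⟩
  have a1 : k1 ≤ k₀ := by omega
  have a2 : k2 ≤ k₀ := by omega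
  have a3 : k3 ≤ k₀ := by omega
  have a4 : 6 * W + 2 ≤ k₀ := by omega
  have hWpos : (0 : ℝ) < W := by exact_mod_cast hW
  obtain ⟨N, hN⟩ := hABB k₀ (1 / (4 * W)) (by positivity)
  refine ⟨N, fun r b M => ?_⟩
  classical
  obtain ⟨K, hKdef⟩ : ∃ K : ℕ, K = M + 1 + k₀ := ⟨_, rfl⟩
  have hK0 : k₀ ≤ K := by omega
  have hKM : ∀ n ∈ Ioc N M, n < 2 ^ K := by
    intro n hn
    have h1 : n < 2 ^ n := Nat.lt_two_pow_self
    have h2 : n ≤ K := by
      have := (Finset.mem_Ioc.1 hn).2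
      omega
    exact h1.trans_le (Nat.pow_le_pow_right (by norm_num) h2)
  have hq4 : 4 ≤ 2 ^ k₀ := by
    have h1 : 2 ^ 2 ≤ 2 ^ k₀ := Nat.pow_le_pow_right (by norm_num) (by omega)
    simpa using h1
  have hpos : ∀ n ∈ Ioc N M, 1 ≤ n := fun n hn => by
    have := (Finset.mem_Ioc.1 hn).1
    omega
  obtain ⟨good, hgood⟩ : ∃ g : Finset ℕ, g = (Ioc N M).filter fun n =>
    k₀ ≤ bl n ∧ (n : ℝ) ≤ YY (bl n) ∧ n.primeFactors.card ≤ RR (bl n) := ⟨_, rfl⟩
  have hgS : good ⊆ Ioc N M := by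
    rw [hgood]
    exact Finset.filter_subset _ _
  have hgl : ∀ i ∈ good, 2 ^ k₀ ≤ lp i.totient := by
    intro i hi
    rw [hgood, Finset.mem_filter] at hi
    have h1 := hi.2.1
    unfold bl at h1
    refine Nat.pow_le_of_le_log ?_ h1
    intro h0
    rw [h0, Nat.log_zero_right] at h1
    omega
  let D : Sys :=
    { W := W, q0 := 2 ^ k₀, δ := dl, b := b, S := Ioc N M, m := Nat.totient, c := r, good := good
      W1 := hW
      Wq := by
        have h1 : k₀ < 2 ^ k₀ := Nat.lt_two_pow_self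
        omega
      dpos := fun p hp => (FIN_dl p (hq4.trans hp)).1
      dhalf := fun p hp => (FIN_dl p (hq4.trans hp)).2
      mpos := fun i hi => Nat.totient_pos.2 (hpos i hi)
      gS := hgS
      gl := hgl }
  have hD := hDIS D (2 ^ K) (by
    intro i hi
    exact lt_of_le_of_lt ((FIN_lp_le _).trans (Nat.totient_le i)) (hKM i (hgS hi))) ?_
  · obtain ⟨a, ha1, ha2⟩ := hD
    refine ⟨a, ha1, fun n hn => ?_⟩
    have h1 := ha2 n hn
    rwa [add_comm] at h1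
  · change (W : ℝ) * (∑ i ∈ Ioc N M \ good, gg dl (2 ^ k₀) i.totient / i.totient +
      ∑ q ∈ Ico (2 ^ k₀) (2 ^ K), DS dl (2 ^ k₀) Nat.totient good q) < 1
    obtain ⟨g, hg⟩ : ∃ g : ℕ → ℝ, g = fun n => gg dl (2 ^ k₀) n.totient / n.totient := ⟨_, rfl⟩
    have hsq := FIN_tel k₀ (by omega) K hK0
    have hK1 : (0 : ℝ) ≤ 1 / (K : ℝ) := by positivity
    -- the double sums
    have hDSb : ∑ q ∈ Ico (2 ^ k₀) (2 ^ K), DS dl (2 ^ k₀) Nat.totient good q ≤ 1 / (k₀ : ℝ) := by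
      rw [FIN_blocks _ k₀ K hK0]
      have h1 : ∑ k ∈ Ico k₀ K, ∑ q ∈ Ico (2 ^ k) (2 ^ (k + 1)), DS dl (2 ^ k₀) Nat.totient good q ≤
          ∑ k ∈ Ico k₀ K, 1 / ((k : ℝ) + 1) ^ 2 := by
        refine Finset.sum_le_sum fun k hk => ?_
        have hk' := (Finset.mem_Ico.1 hk).1
        rw [Finset.sum_congr rfl fun q hq => FIN_DS dl (2 ^ k₀) good k q hq]
        refine hk1 k (a1.trans hk') (2 ^ k₀) _ ?_
        intro n hn
        rw [Finset.mem_filter, hgood, Finset.mem_filter] at hn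
        obtain ⟨⟨h2, h3, h4, h5⟩, h6⟩ := hn
        rw [h6] at h4 h5
        exact ⟨hpos n h2, h6, h4, h5⟩
      linarith
    -- the other classes
    have hSb : ∑ i ∈ Ioc N M \ good, g i ≤ 1 / (4 * (W : ℝ)) + 2 * (1 / (k₀ : ℝ)) := by
      rw [← Finset.sum_filter_add_sum_filter_not (Ioc N M \ good) (fun n => bl n < k₀) g]
      have h1 : ∑ n ∈ (Ioc N M \ good).filter (fun n => bl n < k₀), g n ≤ 1 / (4 * (W : ℝ)) := by
        rw [hg]
        refine hN _ ?_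
        intro n hn
        rw [Finset.mem_filter, Finset.mem_sdiff] at hn
        exact ⟨(Finset.mem_Ioc.1 hn.1.1).1, hn.2⟩
      have h2 : ∑ n ∈ (Ioc N M \ good).filter (fun n => ¬ bl n < k₀), g n ≤
          ∑ k ∈ Ico k₀ K, (1 / ((k : ℝ) + 1) ^ 2 + 1 / ((k : ℝ) + 1) ^ 2) := by
        rw [← Finset.sum_fiberwise_of_maps_to (t := Ico k₀ K) (g := bl)]
        · refine Finset.sum_le_sum fun k hk => ?_
          have hk' := (Finset.mem_Ico.1 hk).1
          rw [← Finset.sum_filter_add_sum_filter_not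
            (((Ioc N M \ good).filter (fun n => ¬ bl n < k₀)).filter fun n => bl n = k) (fun n => YY k < n) g]
          refine add_le_add ?_ ?_
          · rw [hg]
            refine hk3 k (a3.trans hk') (2 ^ k₀) _ ?_
            intro n hn
            simp only [Finset.mem_filter, Finset.mem_sdiff] at hn
            exact ⟨hpos n hn.1.1.1.1, hn.1.2, hn.2⟩
          · rw [hg]
            refine hk2 k (a2.trans hk') (2 ^ k₀) _ ?_
            intro n hn
            simp only [Finset.mem_filter, Finset.mem_sdiff, not_lt] at hn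
            obtain ⟨⟨⟨⟨h3, h4⟩, h5⟩, h6⟩, h7⟩ := hn
            refine ⟨hpos n h3, h6, h7, ?_⟩
            by_contra h8
            rw [not_lt] at h8
            refine h4 ?_
            rw [hgood, Finset.mem_filter]
            rw [← h6] at h7 h8
            exact ⟨h3, h5, h7, h8⟩
        · intro n hn
          rw [Finset.mem_filter, Finset.mem_sdiff] at hn
          rw [Finset.mem_Ico]
          exact ⟨not_lt.1 hn.2, FIN_bl_lt n K (by omega) (hKM n hn.1.1)⟩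
      rw [Finset.sum_add_distrib] at h2
      linarith
    have hg' : ∑ i ∈ Ioc N M \ good, gg dl (2 ^ k₀) i.totient / i.totient = ∑ i ∈ Ioc N M \ good, g i := by
      rw [hg]
    rw [hg']
    have hk0pos : (0 : ℝ) < k₀ := by
      have : 0 < k₀ := by omega
      exact_mod_cast this
    have h3 : (W : ℝ) * (∑ i ∈ Ioc N M \ good, g i +
        ∑ q ∈ Ico (2 ^ k₀) (2 ^ K), DS dl (2 ^ k₀) Nat.totient good q) ≤
        (W : ℝ) * (1 / (4 * (W : ℝ)) + 2 * (1 / (k₀ : ℝ)) + 1 / (k₀ : ℝ)) :=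
      mul_le_mul_of_nonneg_left (add_le_add hSb hDSb) hWpos.le
    refine lt_of_le_of_lt h3 ?_
    have h4 : (W : ℝ) * (1 / (4 * (W : ℝ)) + 2 * (1 / (k₀ : ℝ)) + 1 / (k₀ : ℝ)) = 1 / 4 + 3 * W / k₀ := by
      field_simp
      ring
    rw [h4]
    have h5 : 3 * (W : ℝ) / k₀ ≤ 1 / 2 := by
      rw [div_le_iff₀ hk0pos]
      have h6 : ((6 * W + 2 : ℕ) : ℝ) ≤ k₀ := by exact_mod_cast a4
      push_cast at h6
      linarith
    linarith

end Pool.Agent.PHN
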