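import Pool.Agent.helper50.PHN.Spec

set_option autoImplicit false

namespace Pool.Agent.PHN

open Finset

theorem GGB_sum (f : ℕ → ℝ) (hf : ∀ a b : ℕ, 1 ≤ a → a ≤ b → f b ≤ f a) :
    ∀ (s : ℕ) (S : Finset ℕ), S.card = s → (∀ x ∈ S, 1 ≤ x) →
      ∑ x ∈ S, f x ≤ ∑ i ∈ range s, f (i + 1) := by
  intro s
  induction s with
  | zero =>
      intro S hS _
      rw [Finset.card_eq_zero.1 hS]
      simp
  | succ s ih =>
      intro S hS h1
      have hne : S.Nonempty := by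
        rw [← Finset.card_pos, hS]
        omega
      obtain ⟨m, hm, hmax⟩ := S.exists_max_image id hne
      have hsub : S ⊆ Finset.Icc 1 m := by
        intro x hx
        exact Finset.mem_Icc.2 ⟨h1 x hx, hmax x hx⟩
      have hcard : s + 1 ≤ m := by
        have h2 := Finset.card_le_card hsub
        rw [hS, Nat.card_Icc] at h2
        omega
      rw [← Finset.sum_erase_add _ _ hm, Finset.sum_range_succ]
      have h3 : (S.erase m).card = s := by
        rw [Finset.card_erase_of_mem hm, hS]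
        rfl
      have h4 := ih (S.erase m) h3 fun x hx => h1 x (Finset.mem_of_mem_erase hx)
      have h5 := hf (s + 1) m (by omega) hcard
      linarith

theorem GGB_ber (s : ℕ) : ((s : ℝ) + 1) ^ (-(99 / 100) : ℝ) ≤
    100 * (((s : ℝ) + 1) ^ (1 / 100 : ℝ) - (s : ℝ) ^ (1 / 100 : ℝ)) := by
  have hs : (0 : ℝ) < (s : ℝ) + 1 := by positivity
  have h1 : (1 + -(1 / ((s : ℝ) + 1))) ^ (1 / 100 : ℝ) ≤ 1 + (1 / 100 : ℝ) * (-(1 / ((s : ℝ) + 1))) := by
    refine rpow_one_add_le_one_add_mul_self ?_ (by norm_num) (by norm_num)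
    have : 1 / ((s : ℝ) + 1) ≤ 1 := by
      rw [div_le_one hs]
      have : (0 : ℝ) ≤ s := Nat.cast_nonneg s
      linarith
    linarith
  have h2 : (s : ℝ) = ((s : ℝ) + 1) * (1 + -(1 / ((s : ℝ) + 1))) := by
    field_simp
    ring
  have h3 : (0 : ℝ) ≤ 1 + -(1 / ((s : ℝ) + 1)) := by
    have : 1 / ((s : ℝ) + 1) ≤ 1 := by
      rw [div_le_one hs]
      have : (0 : ℝ) ≤ s := Nat.cast_nonneg s
      linarith
    linarith
  have h4 : (s : ℝ) ^ (1 / 100 : ℝ) = ((s : ℝ) + 1) ^ (1 / 100 : ℝ) * (1 + -(1 / ((s : ℝ) + 1))) ^ (1 / 100 : ℝ) := by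
    rw [← Real.mul_rpow hs.le h3, ← h2]
  have h5 : ((s : ℝ) + 1) ^ (-(99 / 100) : ℝ) = ((s : ℝ) + 1) ^ (1 / 100 : ℝ) * (1 / ((s : ℝ) + 1)) := by
    have h6 : ((s : ℝ) + 1) ^ (-(99 / 100) : ℝ) = ((s : ℝ) + 1) ^ ((1 / 100 : ℝ) - 1) := by norm_num
    rw [h6, Real.rpow_sub hs, Real.rpow_one]
    ring
  have h7 : (0 : ℝ) < ((s : ℝ) + 1) ^ (1 / 100 : ℝ) := Real.rpow_pos_of_pos hs _
  rw [h5, h4]
  nlinarith [mul_le_mul_of_nonneg_left h1 h7.le]

theorem GGB_har (s : ℕ) : ∑ i ∈ range s, ((i : ℝ) + 1) ^ (-(99 / 100) : ℝ) ≤ 100 * (s : ℝ) ^ (1 / 100 : ℝ) := by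
  induction s with
  | zero =>
      simp
  | succ s ih =>
      rw [Finset.sum_range_succ]
      have h := GGB_ber s
      push_cast
      linarith

theorem GGB : GGB_stmt := by
  intro q0 m hm
  have hlog : (0 : ℝ) ≤ Real.log m := Real.log_natCast_nonneg m
  unfold gg
  have hp : ∀ p ∈ m.primeFactors, 1 ≤ p := fun p hp => (Nat.prime_of_mem_primeFactors hp).one_lt.le
  have hdl : ∀ p : ℕ, 0 ≤ dl p := fun p => Real.rpow_nonneg (Nat.cast_nonneg p) _
  have h1 : ∏ p ∈ m.primeFactors.filter (fun p => q0 ≤ p), (1 + 2 * dl p) ≤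
      ∏ p ∈ m.primeFactors.filter (fun p => q0 ≤ p), Real.exp (2 * dl p) := by
    refine Finset.prod_le_prod (fun p _ => ?_) fun p _ => ?_
    · have := hdl p
      linarith
    · have := Real.add_one_le_exp (2 * dl p)
      linarith
  refine h1.trans ?_
  rw [← Real.exp_sum]
  refine Real.exp_le_exp.2 ?_
  have h2 : ∑ p ∈ m.primeFactors.filter (fun p => q0 ≤ p), 2 * dl p ≤ ∑ p ∈ m.primeFactors, 2 * dl p :=
    Finset.sum_le_sum_of_subset_of_nonneg (Finset.filter_subset _ _) fun p _ _ => by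
      have := hdl p
      linarith
  have h3 : ∑ p ∈ m.primeFactors, dl p ≤ ∑ i ∈ range m.primeFactors.card, dl (i + 1) := by
    refine GGB_sum dl ?_ _ _ rfl hp
    intro a b ha hab
    unfold dl
    refine Real.rpow_le_rpow_of_nonpos ?_ ?_ (by norm_num)
    · exact_mod_cast ha
    · exact_mod_cast hab
  have h4 : ∑ i ∈ range m.primeFactors.card, dl (i + 1) ≤ 100 * (m.primeFactors.card : ℝ) ^ (1 / 100 : ℝ) := by
    have h5 := GGB_har m.primeFactors.card
    have h6 : ∀ i : ℕ, dl (i + 1) = ((i : ℝ) + 1) ^ (-(99 / 100) : ℝ) := by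
      intro i
      unfold dl
      push_cast
      rfl
    simp only [h6]
    exact h5
  -- 2 ^ s ≤ m
  have h7 : 2 ^ m.primeFactors.card ≤ m := by
    have h8 : 2 ^ m.primeFactors.card ≤ ∏ p ∈ m.primeFactors, p := by
      refine Finset.pow_card_le_prod _ _ _ fun p hp => ?_
      exact (Nat.prime_of_mem_primeFactors hp).two_le
    exact h8.trans (Nat.le_of_dvd hm (Nat.prod_primeFactors_dvd m))
  have h9 : (m.primeFactors.card : ℝ) * Real.log 2 ≤ Real.log m := by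
    have h10 : ((2 : ℝ) ^ m.primeFactors.card) ≤ m := by exact_mod_cast h7
    have h11 := Real.log_le_log (by positivity) h10
    rwa [Real.log_pow] at h11
  have hl2 : (1 / 2 : ℝ) ≤ Real.log 2 := by
    have := Real.log_two_gt_d9
    linarith
  have h12 : (m.primeFactors.card : ℝ) ≤ 2 * Real.log m := by
    have h13 : (0 : ℝ) ≤ (m.primeFactors.card : ℝ) := Nat.cast_nonneg _
    nlinarith
  have h14 : (m.primeFactors.card : ℝ) ^ (1 / 100 : ℝ) ≤ (21 / 20 : ℝ) * Real.log m ^ (1 / 100 : ℝ) := by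
    have h15 : (m.primeFactors.card : ℝ) ^ (1 / 100 : ℝ) ≤ (2 * Real.log m) ^ (1 / 100 : ℝ) :=
      Real.rpow_le_rpow (Nat.cast_nonneg _) h12 (by norm_num)
    rw [Real.mul_rpow (by norm_num) hlog] at h15
    have h16 : (2 : ℝ) ^ (1 / 100 : ℝ) ≤ 21 / 20 := by
      have h17 : (2 : ℝ) ≤ (21 / 20 : ℝ) ^ (100 : ℕ) := by norm_num
      have h18 : (2 : ℝ) ^ (1 / 100 : ℝ) ≤ ((21 / 20 : ℝ) ^ (100 : ℕ)) ^ (1 / 100 : ℝ) :=
        Real.rpow_le_rpow (by norm_num) h17 (by norm_num)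
      have h19 : ((21 / 20 : ℝ) ^ (100 : ℕ)) ^ (1 / 100 : ℝ) = 21 / 20 := by
        rw [← Real.rpow_natCast, ← Real.rpow_mul (by norm_num)]
        norm_num
      rwa [h19] at h18
    exact h15.trans (mul_le_mul_of_nonneg_right h16 (Real.rpow_nonneg hlog _))
  have h20 : ∑ p ∈ m.primeFactors, 2 * dl p = 2 * ∑ p ∈ m.primeFactors, dl p := (Finset.mul_sum _ _ _).symm
  have h21 : ∑ p ∈ m.primeFactors.filter (fun p => q0 ≤ p), 2 * dl p ≤ 2 * (100 * (m.primeFactors.card : ℝ) ^ (1 / 100 : ℝ)) := by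
    rw [h20] at h2
    linarith
  refine h21.trans ?_
  have h22 := h14
  nlinarith

end Pool.Agent.PHN
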